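import Pool.Agent.H1.IX.E4
import Pool.Agent.H1.IX.RKA
import Pool.Agent.H14.IX.COA
import Pool.Agent.H14.IX.COB
import Pool.Agent.H16.IX.EL
import Pool.Agent.H16.IX.FLN
import Pool.Agent.H16.IX.RKL
import Pool.Agent.H20.IX.LA1
import Pool.Agent.H20.IX.NOE
import Pool.Agent.H21.IX.BHP
import Pool.Agent.H21.IX.CPT
import Pool.Agent.H25.IX.GRP
import Pool.Agent.H25.IX.IMM
import Pool.Agent.H25.IX.SEC
import Pool.Agent.H25.IX.WN1
import Pool.Agent.H25.IX.WN3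
import Pool.Agent.H36.IX.TEL
import Pool.Agent.H36.IX.VTR
import Pool.Agent.H4.IX.LAT
import Pool.Agent.H46.IX.CYA
import Pool.Agent.H46.IX.DVT
import Pool.Agent.H46.IX.NPU
import Pool.Agent.H46.IX.NUM
import Pool.Agent.H47.IX.IDX
import Pool.Agent.H47.IX.NZR
import Pool.Agent.H47.IX.VCR
import Pool.Agent.H49.IX.FXD
import Pool.Agent.H49.IX.HRA
import Pool.Agent.H49.IX.KEY
import Pool.Agent.H49.IX.STR
import Pool.Agent.H50.IX.BET
import Pool.Agent.H50.IX.CUR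
import Pool.Agent.H50.IX.HCS
import Pool.Agent.H50.IX.HPR
import Pool.Agent.H50.IX.LNK
import Pool.Agent.H50.IX.PRM
import Pool.Agent.H50.IX.TRC
import Pool.Agent.H51.IX.EXT
import Pool.Agent.H53.IX.MIN
import Pool.Agent.H60.IX.HF0
import Pool.Agent.H66.IX.PHI
import Pool.Agent.H66.IX.WCL
import Pool.Agent.H67.IX.CNJ
import Pool.Agent.H67.IX.GEN
import Pool.Agent.H67.IX.MAX
import Pool.Agent.H70.IX.PUI
import Pool.Agent.H73.IX.HLF
import Pool.Agent.H79.IX.GRD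
import Pool.Agent.H80.IX.WN2
import Pool.Agent.H86.IX.CYC
import Pool.Agent.H86.IX.NVN
import Pool.Agent.H88.IX.MON
import Pool.Agent.H89.IX.DZF
import Pool.Agent.H89.IX.LCH
import Pool.Agent.H89.IX.PTS
import Pool.Agent.H90.IXK.KPE
import Pool.Agent.H90.IXK.KPF
import Pool.Agent.H90.IXK.RKP

/-!
# Assembly of the board idx_modules
-/

set_option autoImplicit false

namespace Pool.Agent.H15.IX.All

open Pool.Agent.H15.IX

universe u

theorem ar2 : T_AR2 := Pool.Agent.H50.IX.pf_AR2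

theorem dzf : T_DZF.{u} := Pool.Agent.H89.IX.pf_DZF

theorem hcs : T_HCS.{u} := Pool.Agent.H50.IX.pf_HCS

theorem exs : T_EXS.{u} := Pool.Agent.H50.IX.pf_EXS hcs

theorem per : T_PER.{u} := Pool.Agent.H50.IX.pf_PER hcs exs

theorem bet : T_BET.{u} := Pool.Agent.H50.IX.pf_BET dzf per hcs

theorem noe : T_NOE.{u} := Pool.Agent.H20.IX.pf_NOE

theorem bhp : T_BHP.{u} := Pool.Agent.H21.IX.pf_BHP noe

theorem cnj : T_CNJ.{u} := Pool.Agent.H67.IX.pf_CNJ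

theorem hfd : T_HFD.{u} := Pool.Agent.H50.IX.pf_HFD

theorem cpt : T_CPT.{u} := Pool.Agent.H21.IX.pf_CPT

theorem vcr : T_VCR.{u} := Pool.Agent.H47.IX.pf_VCR

theorem la1 : T_LA1.{u} := Pool.Agent.H20.IX.pf_LA1

theorem lat : T_LAT.{u} := Pool.Agent.H4.IX.pf_LAT vcr la1

theorem idx : T_IDX := Pool.Agent.H47.IX.pf_IDX

theorem rkl : T_RKL.{u} := Pool.Agent.H16.IX.pf_RKL

theorem fln : T_FLN.{u} := Pool.Agent.H16.IX.pf_FLN

theorem lch : T_LCH.{u} := Pool.Agent.H89.IX.pf_LCH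

theorem el : T_EL.{u} := Pool.Agent.H16.IX.pf_EL cpt lat bhp idx rkl fln lch

theorem elw : T_ELW.{u} := Pool.Agent.H50.IX.pf_ELW el

theorem min : T_MIN.{u} := Pool.Agent.H53.IX.pf_MIN

theorem ext : T_EXT.{u} := Pool.Agent.H51.IX.pf_EXT

theorem max : T_MAX.{u} := Pool.Agent.H67.IX.pf_MAX

theorem key : T_KEY.{u} := Pool.Agent.H49.IX.pf_KEY cnj

theorem hen : T_HEN.{u} := Pool.Agent.H50.IX.pf_HEN

theorem fxd : T_FXD.{u} := Pool.Agent.H49.IX.pf_FXD hen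

theorem str : T_STR.{u} := Pool.Agent.H49.IX.pf_STR key fxd

theorem hra : T_HRA.{u} := Pool.Agent.H49.IX.pf_HRA

theorem dvt : T_DVT.{u} := Pool.Agent.H46.IX.pf_DVT

theorem uni : T_UNI.{u} := Pool.Agent.H50.IX.pf_UNI

theorem tfr : T_TFR.{u} := Pool.Agent.H50.IX.pf_TFR uni

theorem sec : T_SEC.{u} := Pool.Agent.H25.IX.pf_SEC uni

theorem grp : T_GRP.{u} := Pool.Agent.H25.IX.pf_GRP

theorem gen : T_GEN.{u} := Pool.Agent.H67.IX.pf_GEN

theorem vtr : T_VTR.{u} := Pool.Agent.H36.IX.pf_VTR grp gen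

theorem trc : T_TRC.{u} := Pool.Agent.H50.IX.pf_TRC

theorem imm : T_IMM.{u} := Pool.Agent.H25.IX.pf_IMM trc gen

theorem hlf : T_HLF.{u} := Pool.Agent.H73.IX.pf_HLF cnj fxd trc hen

theorem npu : T_NPU.{u} := Pool.Agent.H46.IX.pf_NPU

theorem pui : T_PUI.{u} := Pool.Agent.H70.IX.pf_PUI npu

theorem nzr : T_NZR.{u} := Pool.Agent.H47.IX.pf_NZR pui

theorem e4 : T_E4.{u} := Pool.Agent.H1.IX.pf_E4 min ext max str hra dvt tfr sec vtr imm hlf nzr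

theorem pts : T_PTS.{u} := Pool.Agent.H89.IX.pf_PTS e4

theorem prm : T_PRM.{u} := Pool.Agent.H50.IX.pf_PRM hfd per bet ar2 elw pts bhp

theorem hpr : T_HPR.{u} := Pool.Agent.H50.IX.pf_HPR

theorem nin : T_NIN.{u} := Pool.Agent.H50.IX.pf_NIN hcs exs hpr

theorem red : T_RED.{u} := Pool.Agent.H50.IX.pf_RED hcs exs

theorem hf0 : T_HF0.{u} := Pool.Agent.H60.IX.pf_HF0

theorem it : T_IT.{u} := Pool.Agent.H50.IX.pf_IT prm nin red hf0

theorem mon : T_MON := Pool.Agent.H88.IX.pf_MON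

theorem wcl : T_WCL := Pool.Agent.H66.IX.pf_WCL

theorem wn1 : T_WN1 := Pool.Agent.H25.IX.pf_WN1 wcl

theorem wn2 : T_WN2 := Pool.Agent.H80.IX.pf_WN2 wcl wn1

theorem wn3 : T_WN3 := Pool.Agent.H25.IX.pf_WN3

theorem tel : T_TEL := Pool.Agent.H36.IX.pf_TEL wcl

theorem nvn : T_NVN := Pool.Agent.H86.IX.pf_NVN mon wn2 wn3 tel wcl

theorem num : T_NUM := Pool.Agent.H46.IX.pf_NUM

theorem phi : T_PHI.{u} := Pool.Agent.H66.IX.pf_PHI

theorem lnk : T_LNK.{u} := Pool.Agent.H50.IX.pf_LNK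

theorem cur : T_CUR.{u} := Pool.Agent.H50.IX.pf_CUR lnk

theorem grd : T_GRD := Pool.Agent.H79.IX.pf_GRD

theorem cor : T_COR.{u} := Pool.Agent.H50.IX.pf_COR it nvn num phi cur grd

theorem cof : T_COF.{u} := Pool.Agent.H50.IX.pf_COF cor

theorem cob : T_COB.{u} := Pool.Agent.H14.IX.pf_COB cof pui

theorem coa : T_COA.{u} := Pool.Agent.H14.IX.pf_COA cob

theorem cya : T_CYA.{u} := Pool.Agent.H46.IX.pf_CYA coa

theorem cyc : T_CYC.{u} := Pool.Agent.H86.IX.pf_CYC cof pui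

theorem kpe : T_KPE.{u} := Pool.Agent.H90.IXK.pf_KPE pui

theorem kpf : T_KPF.{u} := Pool.Agent.H90.IXK.pf_KPF pui

theorem rka : T_RKA.{u} := Pool.Agent.H1.IX.pf_RKA cob

theorem rkp : T_RKP.{u} := Pool.Agent.H90.IXK.pf_RKP cof pui kpe kpf

end Pool.Agent.H15.IX.All
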