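import Mathlib

/-!
# idx_modules, block B: lattices over a discrete valuation ring and valuation rings

`Ov A O`: the valuation ring `O` of `E` contains the image of `A`.
`Dm O M N`: `M` is contained in `N O`.
-/

set_option autoImplicit false

open Finset

namespace Pool.Agent.H15.IX

universe u

section defs

variable {A E : Type u} [CommRing A] [Field E] [Algebra A E]

/-- the valuation ring `O` contains the image of `A` -/
def Ov (A : Type u) {E : Type u} [CommRing A] [Field E] [Algebra A E]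
    (O : ValuationSubring E) : Prop :=
  ∀ a : A, algebraMap A E a ∈ O

/-- `M` is contained in the `O`-module generated by `N` -/
def Dm (O : ValuationSubring E) (M N : Submodule A E) : Prop :=
  ∀ x ∈ M, ∃ y ∈ N, ∃ c ∈ O, x = c * y

end defs

section bi

variable {A E : Type u} [CommRing A] [CommRing E] [Algebra A E]

/-- the family `P` is stable under multiplication by `Y` (degree `(1,0)`) and `Z` (degree
`(0,1)`) -/
def Sb (Y Z : Submodule A E) (P : ℕ → ℕ → Submodule A E) : Prop :=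
  ∀ j k, Y * P j k ≤ P (j + 1) k ∧ Z * P j k ≤ P j (k + 1)

/-- the family `P` is generated in bounded degrees -/
def Gn (Y Z : Submodule A E) (P : ℕ → ℕ → Submodule A E) : Prop :=
  ∃ c, ∀ j k, (c ≤ j → P (j + 1) k ≤ Y * P j k) ∧ (c ≤ k → P j (k + 1) ≤ Z * P j k)

/-- the length of `P / (P ∩ Q)` as an integer (`0` if it is infinite) -/
noncomputable def lg (P Q : Submodule A E) : ℤ :=
  ((Module.length A (↥P ⧸ Q.submoduleOf P)).toNat : ℤ)

/-- the `r`-th differences of `Q` in both variables vanish from `n₀` on -/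
def Dif (n₀ r : ℕ) (Q : ℕ → ℕ → ℤ) : Prop :=
  ∀ j k, n₀ ≤ j → n₀ ≤ k →
    (∑ i ∈ range (r + 1), (-1 : ℤ) ^ i * (r.choose i : ℤ) * Q (j + i) k = 0) ∧
    (∑ i ∈ range (r + 1), (-1 : ℤ) ^ i * (r.choose i : ℤ) * Q j (k + i) = 0)

end bi

/-- valuative criterion of integral dependence -/
def T_VCR : Prop := ∀ (A E : Type u) [CommRing A] [Field E] [Algebra A E]
  (M N : Submodule A E), M ≤ N → N.FG →
  (∀ O : ValuationSubring E, Ov A O → Dm O N M) → ∃ k : ℕ, N ^ (k + 1) = M * N ^ k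

/-- compactness of the space of valuation rings -/
def T_CPT : Prop := ∀ (A E : Type u) [CommRing A] [Field E] [Algebra A E] (t : E) (p : ℕ),
  (∀ O : ValuationSubring E, Ov A O → t⁻¹ ∉ O →
    ∃ f : E, f ≠ 0 ∧ t * f ^ p ∈ O ∧ (t * f ^ p)⁻¹ ∈ O) →
  ∃ F : Finset E, (∀ f ∈ F, f ≠ 0) ∧ ∀ O : ValuationSubring E, Ov A O → t⁻¹ ∉ O →
    ∃ f ∈ F, t * f ^ p ∈ O ∧ (t * f ^ p)⁻¹ ∈ O

/-- the two lattices of the index theorem, value by value -/
def T_LA1 : Prop := ∀ (A E : Type u) [CommRing A] [Field E] [Algebra A E] (t : A) (p : ℕ)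
  (F : Finset E), algebraMap A E t ≠ 0 → 2 ≤ p → F.Nonempty → (∀ f ∈ F, f ≠ 0) →
  ∃ M₀ M₁ : Submodule A E, M₀.FG ∧ M₁.FG ∧ ∀ O : ValuationSubring E, Ov A O →
    (∃ f ∈ F, O.valuation (algebraMap A E t * f ^ p) = 1) →
    ∃ w₀ ∈ M₀, ∃ w₁ ∈ M₁, w₀ ≠ 0 ∧ w₁ ≠ 0 ∧
      (∀ x ∈ M₀, O.valuation x ≤ O.valuation w₀) ∧ (∀ x ∈ M₁, O.valuation x ≤ O.valuation w₁) ∧
      O.valuation w₁ ^ p = O.valuation (algebraMap A E t) * O.valuation w₀ ^ p

/-- two lattices, one of them is (up to integral closure) `t ^ (1/p)` times the other -/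
def T_LAT : Prop := ∀ (A K E : Type u) [CommRing A] [IsDomain A] [IsDiscreteValuationRing A]
  [Field K] [Algebra A K] [IsFractionRing A K] [Field E] [Algebra K E] [Algebra A E]
  [IsScalarTower A K E] (t : A) (p : ℕ) (F : Finset E), Irreducible t → 2 ≤ p →
  (∀ f ∈ F, f ≠ 0) →
  (∀ O : ValuationSubring E, Ov A O → (algebraMap A E t)⁻¹ ∉ O →
    ∃ f ∈ F, algebraMap A E t * f ^ p ∈ O ∧ (algebraMap A E t * f ^ p)⁻¹ ∈ O) →
  ∃ (M₀ M₁ : Submodule A E) (c k₀ : ℕ), M₀.FG ∧ M₁.FG ∧ M₁ ≠ ⊥ ∧ M₁ ≤ M₀ ∧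
    Submodule.span A {algebraMap A E t} ^ c * M₀ ≤ M₁ ∧
    (M₁ ^ p ⊔ Submodule.span A {algebraMap A E t} * M₀ ^ p) ^ k₀ * M₁ ^ p =
      (M₁ ^ p ⊔ Submodule.span A {algebraMap A E t} * M₀ ^ p) ^ k₀ *
        (Submodule.span A {algebraMap A E t} * M₀ ^ p)

/-- bigraded submodules of finitely generated bigraded modules are finitely generated -/
def T_NOE : Prop := ∀ (A E : Type u) [CommRing A] [IsNoetherianRing A] [CommRing E]
  [Algebra A E] (Y Z : Submodule A E) (P P' : ℕ → ℕ → Submodule A E), Y.FG → Z.FG →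
  (∀ j k, (P j k).FG) → (∀ j k, P' j k ≤ P j k) → Sb Y Z P → Sb Y Z P' → Gn Y Z P → Gn Y Z P'

/-- bigraded Hilbert functions: high differences vanish -/
def T_BHP : Prop := ∀ (A E : Type u) [CommRing A] [IsNoetherianRing A] [CommRing E]
  [Algebra A E] (Y Z : Submodule A E) (P P' : ℕ → ℕ → Submodule A E), Y.FG → Z.FG →
  (∀ j k, (P j k).FG) → (∀ j k, P' j k ≤ P j k) → Sb Y Z P → Sb Y Z P' → Gn Y Z P →
  (∀ j k, IsFiniteLength A (↥(P j k) ⧸ (P' j k).submoduleOf (P j k))) →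
  ∃ n₀ r : ℕ, Dif n₀ r (fun j k => lg (P j k) (P' j k))

/-- arithmetic of the index function -/
def T_IDX : Prop := ∀ (p n₀ r : ℕ) (Q : ℕ → ℕ → ℤ) (H : ℕ → ℤ), 1 ≤ p → Dif n₀ r Q →
  (∀ J k, k + p ≤ J → ∑ i ∈ range p, Q (J - 1 - (k + i)) (k + i) = H J) →
  ∃ J₀, ∀ J, J₀ ≤ J → (p : ℤ) ∣ H J

/-- the length of `L / t L` is the rank of the lattice `L` -/
def T_RKL : Prop := ∀ (A K E : Type u) [CommRing A] [IsDomain A] [IsDiscreteValuationRing A]
  [Field K] [Algebra A K] [IsFractionRing A K] [Field E] [Algebra K E] [Algebra A E]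
  [IsScalarTower A K E] (t : A) (L : Submodule A E), Irreducible t → L.FG →
  lg L (Submodule.span A {algebraMap A E t} * L) =
    (Module.finrank K ↥(Submodule.span K (L : Set E)) : ℤ)

/-- quotients killed by a power of `t` have finite length -/
def T_FLN : Prop := ∀ (A E : Type u) [CommRing A] [IsDomain A] [IsDiscreteValuationRing A]
  [CommRing E] [Algebra A E] (t : A) (c : ℕ) (L L' : Submodule A E), Irreducible t → L.FG →
  L' ≤ L → Submodule.span A {algebraMap A E t} ^ c * L ≤ L' →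
  IsFiniteLength A (↥L ⧸ L'.submoduleOf L)

/-- lengths of quotients add up in chains -/
def T_LCH : Prop := ∀ (A E : Type u) [CommRing A] [CommRing E] [Algebra A E]
  (n : ℕ) (L : ℕ → Submodule A E), (∀ i, L (i + 1) ≤ L i) →
  (∀ i, IsFiniteLength A (↥(L i) ⧸ (L (i + 1)).submoduleOf (L i))) →
  ∑ i ∈ range n, lg (L i) (L (i + 1)) = lg (L 0) (L n)

/-- the index theorem for a field `E` all of whose valuation rings (over `A`, with `t` in the
maximal ideal) have values of `t` divisible by `p` -/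
def T_EL : Prop := ∀ (A K E : Type u) [CommRing A] [IsDomain A] [IsDiscreteValuationRing A]
  [Field K] [Algebra A K] [IsFractionRing A K] [Field E] [Algebra K E] [Algebra A E]
  [IsScalarTower A K E] (t : A) (p : ℕ), Irreducible t → 2 ≤ p →
  (∀ O : ValuationSubring E, Ov A O → (algebraMap A E t)⁻¹ ∉ O → ∃ f : E, f ≠ 0 ∧
    algebraMap A E t * f ^ p ∈ O ∧ (algebraMap A E t * f ^ p)⁻¹ ∈ O) →
  ∃ V : Submodule K E, V.FG ∧ V ≠ ⊥ ∧ ∀ T : Submodule K E, T.FG →
    ∃ J₀ : ℕ, ∀ J, J₀ ≤ J → p ∣ Module.finrank K ↥(V ^ J * T)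

end Pool.Agent.H15.IX
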