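import Mathlib

/-!
# idx_modules, block C: valued fields

Notation. `k` is algebraically closed of characteristic `0`, `Ω` an algebraically closed field
containing `k`, `O` a valuation ring of `Ω` with residue field `k`, `t` a nonzero element of the
maximal ideal, `p` a prime number.
-/

set_option autoImplicit false

open Finset

namespace Pool.Agent.H15.IX

universe u

/-- the valuation ring `O` contains `k` and its residue field is `k` -/
def Rs (k : Type u) {Ω : Type u} [Field k] [Field Ω] [Algebra k Ω] (O : ValuationSubring Ω) :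
    Prop :=
  (∀ c : k, algebraMap k Ω c ∈ O) ∧ ∀ x ∈ O, ∃ c : k, O.valuation (x - algebraMap k Ω c) < 1

/-- the value of `t` is not divisible by `p` in the value group of `M` -/
def Gd {Ω : Type u} [Field Ω] (O : ValuationSubring Ω) (p : ℕ) (t : Ω) (M : Subfield Ω) : Prop :=
  ∀ f ∈ M, O.valuation (t * f ^ p) ≠ 1

/-- `N` is relatively algebraically closed in `M` -/
def Rac {Ω : Type u} [Field Ω] (N M : Subfield Ω) : Prop :=
  ∀ x ∈ M, IsIntegral N x → x ∈ N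

/-- `N` is Henselian: conjugate elements have the same value -/
def Hns {Ω : Type u} [Field Ω] (O : ValuationSubring Ω) (N : Subfield Ω) : Prop :=
  ∀ x y : Ω, IsIntegral N x → Polynomial.aeval y (minpoly N x) = 0 →
    O.valuation y = O.valuation x

/-- `N` is existentially closed in `M` as a valued field (for comparisons of the values of
polynomials with coefficients in `N`) -/
def Vec {Ω : Type u} [Field Ω] (O : ValuationSubring Ω) (N M : Subfield Ω) : Prop :=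
  ∀ (m : ℕ) (y : Fin m → Ω), (∀ i, y i ∈ M) → ∀ F : Finset (MvPolynomial (Fin m) Ω),
    (∀ P ∈ F, ∀ s, P.coeff s ∈ N) →
    ∃ z : Fin m → Ω, (∀ i, z i ∈ N) ∧ ∀ P ∈ F, ∀ Q ∈ F,
      (O.valuation (MvPolynomial.eval y P) ≤ O.valuation (MvPolynomial.eval y Q) ↔
        O.valuation (MvPolynomial.eval z P) ≤ O.valuation (MvPolynomial.eval z Q))

/-- every valuation ring over `k` contains one with residue field `k` -/
def T_MIN : Prop := ∀ (k E : Type u) [Field k] [IsAlgClosed k] [Field E] [Algebra k E]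
  (O : ValuationSubring E), (∀ c : k, algebraMap k E c ∈ O) →
  ∃ O' : ValuationSubring E, O' ≤ O ∧ Rs k O'

/-- extension to an algebraic extension -/
def T_EXT : Prop := ∀ (k E Ω : Type u) [Field k] [IsAlgClosed k] [Field E] [Field Ω]
  [Algebra k E] [Algebra k Ω] [Algebra E Ω] [IsScalarTower k E Ω] [Algebra.IsAlgebraic E Ω]
  (O : ValuationSubring E), Rs k O →
  ∃ O' : ValuationSubring Ω, O'.comap (algebraMap E Ω) = O ∧ Rs k O'

/-- valuation rings of an algebraic closure over the same valuation ring are conjugate -/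
def T_CNJ : Prop := ∀ (F Ω : Type u) [Field F] [CharZero F] [Field Ω] [Algebra F Ω]
  [Algebra.IsAlgebraic F Ω] [IsAlgClosed Ω] (O₁ O₂ : ValuationSubring Ω),
  O₁.comap (algebraMap F Ω) = O₂.comap (algebraMap F Ω) →
  ∃ σ : Ω ≃ₐ[F] Ω, ∀ x, x ∈ O₁ ↔ σ x ∈ O₂

/-- maximal extension with the value of `t` not divisible by `p` -/
def T_MAX : Prop := ∀ (Ω : Type u) [Field Ω] (O : ValuationSubring Ω) (p : ℕ) (t : Ω)
  (E : Subfield Ω), Gd O p t E →
  ∃ M : Subfield Ω, E ≤ M ∧ Gd O p t M ∧ ∀ M' : Subfield Ω, M ≤ M' → Gd O p t M' → M' = M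

/-- an automorphism which preserves `O` and moves `t ^ (1/p)` -/
def T_KEY : Prop := ∀ (k Ω : Type u) [Field k] [IsAlgClosed k] [CharZero k] [Field Ω]
  [IsAlgClosed Ω] [Algebra k Ω] (O : ValuationSubring Ω) (M : Subfield Ω)
  [Algebra.IsAlgebraic M Ω] (p : ℕ) (t τ : Ω), Rs k O → (∀ c : k, algebraMap k Ω c ∈ M) →
  t ∈ M → t ≠ 0 → p.Prime → Gd O p t M → τ ^ p = t →
  ∃ σ : Ω ≃ₐ[M] Ω, (∀ x, x ∈ O ↔ σ x ∈ O) ∧ σ τ ≠ τ

/-- if all automorphisms preserve `O` then conjugate elements have the same value -/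
def T_HEN : Prop := ∀ (Ω : Type u) [Field Ω] [IsAlgClosed Ω] (O : ValuationSubring Ω)
  (M : Subfield Ω) [Algebra.IsAlgebraic M Ω],
  (∀ σ : Ω ≃ₐ[M] Ω, ∀ x, x ∈ O ↔ σ x ∈ O) → Hns O M

/-- the Henselisation: the fixed field of the decomposition group -/
def T_FXD : Prop := ∀ (Ω : Type u) [Field Ω] [CharZero Ω] [IsAlgClosed Ω]
  (O : ValuationSubring Ω) (F : Subfield Ω) [Algebra.IsAlgebraic F Ω],
  ∃ M₁ : Subfield Ω, F ≤ M₁ ∧ Hns O M₁ ∧
    ∀ x, x ∈ M₁ ↔ ∀ σ : Ω ≃ₐ[F] Ω, (∀ y, y ∈ O ↔ σ y ∈ O) → σ x = x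

/-- maximal fields are Henselian -/
def T_STR : Prop := ∀ (k Ω : Type u) [Field k] [IsAlgClosed k] [CharZero k] [Field Ω]
  [IsAlgClosed Ω] [Algebra k Ω] (O : ValuationSubring Ω) (M : Subfield Ω)
  [Algebra.IsAlgebraic M Ω] (p : ℕ) (t : Ω), Rs k O → (∀ c : k, algebraMap k Ω c ∈ M) →
  t ∈ M → t ≠ 0 → p.Prime → Gd O p t M →
  (∀ M' : Subfield Ω, M ≤ M' → Gd O p t M' → M' = M) → Hns O M

/-- relatively algebraically closed subfields of Henselian fields are Henselian -/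
def T_HRA : Prop := ∀ (Ω : Type u) [Field Ω] [IsAlgClosed Ω] (O : ValuationSubring Ω)
  (N M : Subfield Ω), N ≤ M → Rac N M → Hns O M → Hns O N

/-- best approximation (trace) -/
def T_TRC : Prop := ∀ (k Ω : Type u) [Field k] [CharZero k] [Field Ω] [IsAlgClosed Ω]
  [Algebra k Ω] (O : ValuationSubring Ω) (N : Subfield Ω),
  (∀ c : k, algebraMap k Ω c ∈ O) → (∀ c : k, algebraMap k Ω c ∈ N) → Hns O N →
  ∀ θ : Ω, IsIntegral N θ → ∃ a ∈ N, ∀ b ∈ N, O.valuation (θ - a) ≤ O.valuation (θ - b)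

/-- roots of one-units -/
def T_UNI : Prop := ∀ (k Ω : Type u) [Field k] [IsAlgClosed k] [CharZero k] [Field Ω]
  [IsAlgClosed Ω] [Algebra k Ω] (O : ValuationSubring Ω) (N : Subfield Ω), Rs k O →
  (∀ c : k, algebraMap k Ω c ∈ N) → Hns O N → ∀ x ∈ N, O.valuation (x - 1) < 1 →
  ∀ m : ℕ, 1 ≤ m → ∃ w ∈ N, w ^ m = x ∧ O.valuation (w - 1) < 1

/-- roots of `t` of order prime to `p` -/
def T_DVT : Prop := ∀ (k Ω : Type u) [Field k] [IsAlgClosed k] [CharZero k] [Field Ω]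
  [IsAlgClosed Ω] [Algebra k Ω] (O : ValuationSubring Ω) (M : Subfield Ω) (p : ℕ) (t : Ω),
  Rs k O → (∀ c : k, algebraMap k Ω c ∈ M) → t ∈ M → t ≠ 0 → p.Prime → Gd O p t M →
  (∀ M' : Subfield Ω, M ≤ M' → Gd O p t M' → M' = M) → Hns O M →
  ∀ m : ℕ, ¬ p ∣ m → ∃ x ∈ M, x ^ m = t

/-- the value group of a relatively algebraically closed subfield is pure -/
def T_TFR : Prop := ∀ (k Ω : Type u) [Field k] [IsAlgClosed k] [CharZero k] [Field Ω]
  [IsAlgClosed Ω] [Algebra k Ω] (O : ValuationSubring Ω) (N M : Subfield Ω), Rs k O →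
  (∀ c : k, algebraMap k Ω c ∈ N) → N ≤ M → Rac N M → Hns O M →
  ∀ (x b : Ω) (m : ℕ), x ∈ M → b ∈ N → b ≠ 0 → 1 ≤ m → O.valuation x ^ m = O.valuation b →
  ∃ b' ∈ N, O.valuation x = O.valuation b'

/-- cross sections -/
def T_SEC : Prop := ∀ (k Ω : Type u) [Field k] [IsAlgClosed k] [CharZero k] [Field Ω]
  [IsAlgClosed Ω] [Algebra k Ω] (O : ValuationSubring Ω) (N M : Subfield Ω), Rs k O →
  (∀ c : k, algebraMap k Ω c ∈ N) → N ≤ M → Hns O N → Hns O M →
  ∃ S : Subgroup Ωˣ, (∀ s ∈ S, (s : Ω) ∈ M) ∧ (∀ s ∈ S, O.valuation (s : Ω) = 1 → s = 1) ∧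
    (∀ x ∈ M, x ≠ 0 → ∃ s ∈ S, O.valuation (s : Ω) = O.valuation x) ∧
    (∀ x ∈ N, x ≠ 0 → ∃ s ∈ S, (s : Ω) ∈ N ∧ O.valuation (s : Ω) = O.valuation x)

/-- positive homomorphisms to the rational numbers with denominators prime to `p` -/
def T_GRP : Prop := ∀ (Γ : Type u) [AddCommGroup Γ] [LinearOrder Γ] [IsOrderedAddMonoid Γ]
  (Δ : AddSubgroup Γ) (τ : Γ) (p : ℕ) (P : Finset Γ), Δ.FG → τ ∈ Δ → 0 < τ → p.Prime →
  (∀ x ∈ Δ, ∀ (m : ℕ) (n : ℤ), 1 ≤ m → m • x = n • τ →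
    ∃ (m' : ℕ) (n' : ℤ), ¬ p ∣ m' ∧ m' • x = n' • τ) →
  (∀ x ∈ P, x ∈ Δ ∧ 0 < x) →
  ∃ φ : Δ →+ ℚ, (∀ x : Δ, (x : Γ) ∈ P → 0 < φ x) ∧ (∀ x : Δ, ¬ p ∣ (φ x).den) ∧
    ∀ x : Δ, ∀ (m : ℕ) (n : ℤ), 1 ≤ m → m • (x : Γ) = n • τ → (m : ℚ) * φ x = n

/-- it is enough to treat polynomials in generators -/
def T_GEN : Prop := ∀ (Ω : Type u) [Field Ω] (O : ValuationSubring Ω) (N : Subfield Ω)
  (G : Set Ω),
  (∀ (m : ℕ) (y : Fin m → Ω), (∀ i, y i ∈ G) → ∀ F : Finset (MvPolynomial (Fin m) Ω),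
    (∀ P ∈ F, ∀ s, P.coeff s ∈ N) → ∃ z : Fin m → Ω, (∀ i, z i ∈ N) ∧ ∀ P ∈ F, ∀ Q ∈ F,
      (O.valuation (MvPolynomial.eval y P) ≤ O.valuation (MvPolynomial.eval y Q) ↔
        O.valuation (MvPolynomial.eval z P) ≤ O.valuation (MvPolynomial.eval z Q))) →
  Vec O N (Subfield.closure ((N : Set Ω) ∪ G))

/-- the value-transcendental part -/
def T_VTR : Prop := ∀ (k Ω : Type u) [Field k] [IsAlgClosed k] [CharZero k] [Field Ω]
  [IsAlgClosed Ω] [Algebra k Ω] (O : ValuationSubring Ω) (N M : Subfield Ω) (p : ℕ) (t : Ω)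
  (S : Subgroup Ωˣ), p.Prime → t ∈ N → t ≠ 0 → O.valuation t < 1 → N ≤ M →
  (∀ s ∈ S, (s : Ω) ∈ M) → (∀ s ∈ S, O.valuation (s : Ω) = 1 → s = 1) →
  (∀ x ∈ N, x ≠ 0 → ∃ s ∈ S, (s : Ω) ∈ N ∧ O.valuation (s : Ω) = O.valuation x) →
  (∀ x ∈ N, x ≠ 0 → ∃ (m : ℕ) (n : ℤ), 1 ≤ m ∧ ¬ p ∣ m ∧
    O.valuation x ^ m = O.valuation t ^ n) →
  (∀ m : ℕ, ¬ p ∣ m → ∃ x ∈ N, O.valuation x ^ m = O.valuation t) →
  (∀ (x b : Ω) (m : ℕ), x ∈ M → b ∈ N → b ≠ 0 → 1 ≤ m →
    O.valuation x ^ m = O.valuation b → ∃ b' ∈ N, O.valuation x = O.valuation b') →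
  Vec O N (Subfield.closure ((N : Set Ω) ∪ {x | ∃ s ∈ S, x = (s : Ω)}))

/-- the immediate transcendental part -/
def T_IMM : Prop := ∀ (k Ω : Type u) [Field k] [IsAlgClosed k] [CharZero k] [Field Ω]
  [IsAlgClosed Ω] [Algebra k Ω] (O : ValuationSubring Ω) (N M : Subfield Ω) (ζ : Ω),
  (∀ c : k, algebraMap k Ω c ∈ O) → (∀ c : k, algebraMap k Ω c ∈ N) → N ≤ M → Rac N M →
  Hns O N → (∀ x ∈ M, x ≠ 0 → ∃ y ∈ N, O.valuation (x - y) < O.valuation x) → ζ ∈ M →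
  Vec O N (Subfield.closure ((N : Set Ω) ∪ {ζ}))

/-- existential closedness passes to immediate algebraic Henselian extensions -/
def T_HLF : Prop := ∀ (k Ω : Type u) [Field k] [IsAlgClosed k] [CharZero k] [Field Ω]
  [IsAlgClosed Ω] [Algebra k Ω] (O : ValuationSubring Ω) (N F M : Subfield Ω), Rs k O →
  (∀ c : k, algebraMap k Ω c ∈ N) → N ≤ F → F ≤ M → Hns O N → Hns O M →
  (∀ x ∈ M, IsIntegral F x) →
  (∀ x ∈ M, x ≠ 0 → ∃ y ∈ F, O.valuation (x - y) < O.valuation x) →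
  Vec O N F → Vec O N M

/-- the theorem of Newton and Puiseux (universe polymorphic copy of `Pool.Agent.H18.VZ.T_NPX`) -/
def T_NPU : Prop := ∀ (κ : Type u) [Field κ] [IsAlgClosed κ] [CharZero κ]
  (Q : Polynomial (PowerSeries κ)), Q.Monic → ∃ (m : ℕ) (f : PowerSeries κ →+* PowerSeries κ)
    (x : Fin Q.natDegree → PowerSeries κ), 1 ≤ m ∧ f PowerSeries.X = PowerSeries.X ^ m ∧
    (∀ a, f (PowerSeries.C a) = PowerSeries.C a) ∧ (∀ c, f c = 0 → c = 0) ∧
    Q.map f = ∏ j, (Polynomial.X - Polynomial.C (x j))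

/-- finite extensions of the field of Laurent series: they are fields of Laurent series in
`s = t ^ (1/m)` -/
def T_PUI : Prop := ∀ (k L : Type u) [Field k] [IsAlgClosed k] [CharZero k] [Field L]
  [Algebra (LaurentSeries k) L] [FiniteDimensional (LaurentSeries k) L],
  ∃ e : L ≃+* LaurentSeries k,
    e (algebraMap (LaurentSeries k) L (HahnSeries.single 1 1)) =
      HahnSeries.single 1 1 ^ Module.finrank (LaurentSeries k) L ∧
    ∀ b : PowerSeries k, ∃ c : ℕ → PowerSeries k, e.symm (b : LaurentSeries k) =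
      ∑ i ∈ range (Module.finrank (LaurentSeries k) L),
        e.symm (HahnSeries.single 1 1) ^ i *
          algebraMap (LaurentSeries k) L (c i : LaurentSeries k)

/-- algebraic extensions of the field of Laurent series in which the value of `t` is not
divisible by `p` -/
def T_NZR : Prop := ∀ (k Ω : Type u) [Field k] [IsAlgClosed k] [CharZero k] [Field Ω]
  [Algebra (LaurentSeries k) Ω] (O : ValuationSubring Ω) (p : ℕ) (N : Subfield Ω), p.Prime →
  (∀ a : PowerSeries k, algebraMap (LaurentSeries k) Ω (a : LaurentSeries k) ∈ O) →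
  O.valuation (algebraMap (LaurentSeries k) Ω (HahnSeries.single 1 1)) < 1 →
  (∀ c : LaurentSeries k, algebraMap (LaurentSeries k) Ω c ∈ N) →
  (∀ x ∈ N, IsIntegral (LaurentSeries k) x) →
  Gd O p (algebraMap (LaurentSeries k) Ω (HahnSeries.single 1 1)) N →
  (∀ x ∈ N, x ≠ 0 → ∃ (m : ℕ) (n : ℤ), 1 ≤ m ∧ ¬ p ∣ m ∧ O.valuation x ^ m =
    O.valuation (algebraMap (LaurentSeries k) Ω (HahnSeries.single 1 1)) ^ n) ∧
  ∀ (L : IntermediateField (LaurentSeries k) Ω) [FiniteDimensional (LaurentSeries k) L],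
    L.toSubfield ≤ N → ¬ p ∣ Module.finrank (LaurentSeries k) L

/-- a valuation ring in whose value group `t` is not divisible by `p` gives points over
extensions of degree prime to `p` -/
def T_E4 : Prop := ∀ (k E : Type u) [Field k] [IsAlgClosed k] [CharZero k] [Field E]
  [Algebra (LaurentSeries k) E] (p : ℕ) (O : ValuationSubring E), p.Prime →
  (∀ a : PowerSeries k, algebraMap (LaurentSeries k) E (a : LaurentSeries k) ∈ O) →
  (algebraMap (LaurentSeries k) E (HahnSeries.single 1 1))⁻¹ ∉ O →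
  (∀ f : E, f ≠ 0 → ¬ (algebraMap (LaurentSeries k) E (HahnSeries.single 1 1) * f ^ p ∈ O ∧
    (algebraMap (LaurentSeries k) E (HahnSeries.single 1 1) * f ^ p)⁻¹ ∈ O)) →
  ∀ (m : ℕ) (y : Fin m → E), ∃ (K' : Type u) (_ : Field K') (_ : Algebra (LaurentSeries k) K')
    (_ : FiniteDimensional (LaurentSeries k) K'),
    ¬ p ∣ Module.finrank (LaurentSeries k) K' ∧ ∃ z : Fin m → K',
      ∀ P : MvPolynomial (Fin m) (LaurentSeries k), MvPolynomial.aeval y P = 0 →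
        MvPolynomial.aeval z P = 0

end Pool.Agent.H15.IX
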