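import Pool.Agent.H15.IX.TB
import Pool.Agent.H15.IX.TC

/-!
# idx_modules, block D: the index theorem for multigraded rings

`V` is the finite set of variables, `deg` gives their degrees in `Z^r`, `L` is a list of `q`
linear forms on `Z^r`. A degree `A` is deep if all `L A i` are large. `Bl` is a list of blocks of
variables.
-/

set_option autoImplicit false

open Finset MvPolynomial

namespace Pool.Agent.H15.IX

universe u

section defs

variable {V : Type} [Fintype V] {r q nb : ℕ} {K : Type u} [Field K]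

/-- homogeneous ideals -/
def Hid (deg : V → Fin r → ℤ) (I : Ideal (MvPolynomial V K)) : Prop :=
  ∀ f ∈ I, ∀ A : Fin r → ℤ, weightedHomogeneousComponent deg A f ∈ I

/-- the colon ideal `(I : f)` -/
def cln {R : Type u} [CommRing R] (I : Ideal R) (f : R) : Ideal R where
  carrier := {g | f * g ∈ I}
  add_mem' := by
    intro a b ha hb
    show f * (a + b) ∈ I
    rw [mul_add]
    exact I.add_mem ha hb
  zero_mem' := by
    show f * 0 ∈ I
    rw [mul_zero]
    exact I.zero_mem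
  smul_mem' := by
    intro c a ha
    show f * (c * a) ∈ I
    rw [mul_left_comm]
    exact I.mul_mem_left c ha

/-- the Hilbert function of `S / I` -/
noncomputable def hf (deg : V → Fin r → ℤ) (I : Ideal (MvPolynomial V K)) (A : Fin r → ℤ) : ℤ :=
  (Module.finrank K ↥(weightedHomogeneousSubmodule K deg A) : ℤ) -
    (Module.finrank K ↥(I.restrictScalars K ⊓ weightedHomogeneousSubmodule K deg A) : ℤ)

/-- the number of monomials of degree `A` -/
noncomputable def mon (deg : V → Fin r → ℤ) (A : Fin r → ℤ) : ℕ :=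
  Nat.card {s : V →₀ ℕ // Finsupp.weight deg s = A}

/-- `h A` is divisible by `p` for all deep degrees `A` -/
def Ev (p : ℕ) (L : (Fin r → ℤ) →+ (Fin q → ℤ)) (h : (Fin r → ℤ) → ℤ) : Prop :=
  ∃ b : ℤ, ∀ A : Fin r → ℤ, (∀ i, b ≤ L A i) → (p : ℤ) ∣ h A

/-- finitely many monomials in every degree -/
def Fnt (deg : V → Fin r → ℤ) : Prop :=
  ∀ A : Fin r → ℤ, {s : V →₀ ℕ | Finsupp.weight deg s = A}.Finite

/-- the properties of the grading which are used: `A₀` is positive, monomials of deep degree and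
of degree `(j + 1) A₀` contain a monomial of degree `A₀`, and monomials of degree `A₀` contain a
variable of every block -/
def Gr (deg : V → Fin r → ℤ) (L : (Fin r → ℤ) →+ (Fin q → ℤ)) (A₀ : Fin r → ℤ)
    (Bl : Fin nb → Finset V) : Prop :=
  Fnt deg ∧ (∀ i, 0 < L A₀ i) ∧
  (∃ b : ℤ, ∀ s : V →₀ ℕ, (∀ i, b ≤ L (Finsupp.weight deg s) i) →
    ∃ s' : V →₀ ℕ, s' ≤ s ∧ Finsupp.weight deg s' = A₀) ∧
  (∀ j : ℕ, 1 ≤ j → ∀ s : V →₀ ℕ, Finsupp.weight deg s = (j + 1) • A₀ →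
    ∃ s' : V →₀ ℕ, s' ≤ s ∧ Finsupp.weight deg s' = A₀) ∧
  (∀ s : V →₀ ℕ, Finsupp.weight deg s = A₀ → ∀ i, ∃ v ∈ Bl i, s v ≠ 0)

variable {F : Type u} [Field F] [Algebra K F]

/-- the ideal of the point `x` -/
noncomputable def Ix (K : Type u) [Field K] [Algebra K F] (x : V → F) : Ideal (MvPolynomial V K) :=
  RingHom.ker (aeval x : MvPolynomial V K →ₐ[K] F)

/-- the values at `x` of the forms of degree `A` -/
noncomputable def Dg (K : Type u) [Field K] [Algebra K F] (deg : V → Fin r → ℤ) (x : V → F)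
    (A : Fin r → ℤ) : Submodule K F :=
  (weightedHomogeneousSubmodule K deg A).map (aeval x : MvPolynomial V K →ₐ[K] F).toLinearMap

/-- the field generated by the quotients of forms of the same degree -/
noncomputable def Ez (K : Type u) [Field K] [Algebra K F] (deg : V → Fin r → ℤ) (x : V → F) :
    IntermediateField K F :=
  IntermediateField.adjoin K {y | ∃ (A : Fin r → ℤ) (a b : MvPolynomial V K),
    IsWeightedHomogeneous deg a A ∧ IsWeightedHomogeneous deg b A ∧ aeval x b ≠ 0 ∧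
    y = aeval x a / aeval x b}

end defs

/-- the colon ideal and the sum are homogeneous -/
def T_HCS : Prop := ∀ (V : Type) [Fintype V] (r : ℕ) (K : Type u) [Field K]
  (deg : V → Fin r → ℤ) (I : Ideal (MvPolynomial V K)) (f : MvPolynomial V K)
  (δ : Fin r → ℤ), Hid deg I → IsWeightedHomogeneous deg f δ →
  Hid deg (cln I f) ∧ Hid deg (I ⊔ Ideal.span {f})

/-- the exact sequence of multiplication by `f` -/
def T_EXS : Prop := ∀ (V : Type) [Fintype V] (r : ℕ) (K : Type u) [Field K]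
  (deg : V → Fin r → ℤ) (I : Ideal (MvPolynomial V K)) (f : MvPolynomial V K)
  (δ : Fin r → ℤ), Fnt deg → Hid deg I → IsWeightedHomogeneous deg f δ →
  ∀ A, hf deg I A = hf deg (cln I f) (A - δ) + hf deg (I ⊔ Ideal.span {f}) A

/-- homogeneous ideals with the prime property for homogeneous elements are prime -/
def T_HPR : Prop := ∀ (V : Type) [Fintype V] (r : ℕ) (K : Type u) [Field K]
  (deg : V → Fin r → ℤ) (I : Ideal (MvPolynomial V K)), Hid deg I → I ≠ ⊤ →
  (∀ (a b : MvPolynomial V K) (A B : Fin r → ℤ), IsWeightedHomogeneous deg a A →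
    IsWeightedHomogeneous deg b B → a * b ∈ I → a ∈ I ∨ b ∈ I) → I.IsPrime

/-- Noetherian induction: prime ideals are enough -/
def T_NIN : Prop := ∀ (V : Type) [Fintype V] (r q : ℕ) (K : Type u) [Field K]
  (deg : V → Fin r → ℤ) (L : (Fin r → ℤ) →+ (Fin q → ℤ)) (p : ℕ)
  (J : Ideal (MvPolynomial V K)), Fnt deg →
  (∀ P : Ideal (MvPolynomial V K), Hid deg P → P.IsPrime → J ≤ P →
    (∀ I : Ideal (MvPolynomial V K), Hid deg I → P < I → Ev p L (hf deg I)) →
    Ev p L (hf deg P)) →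
  ∀ I : Ideal (MvPolynomial V K), Hid deg I → J ≤ I → Ev p L (hf deg I)

/-- reduction to ideals which contain all the equations -/
def T_RED : Prop := ∀ (V : Type) [Fintype V] (r q : ℕ) (K : Type u) [Field K]
  (deg : V → Fin r → ℤ) (L : (Fin r → ℤ) →+ (Fin q → ℤ)) (p : ℕ) (κ : Type) [Fintype κ]
  [DecidableEq κ] (φ : κ → MvPolynomial V K) (M : κ → Fin r → ℤ), Fnt deg →
  (∀ i, IsWeightedHomogeneous deg (φ i) (M i)) →
  (∀ I : Ideal (MvPolynomial V K), Hid deg I → (∀ i, φ i ∈ I) → Ev p L (hf deg I)) →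
  Ev p L (fun A => ∑ T : Finset κ, (-1 : ℤ) ^ T.card *
    hf deg (⊥ : Ideal (MvPolynomial V K)) (A - ∑ i ∈ T, M i))

/-- the Hilbert function of the polynomial ring -/
def T_HF0 : Prop := ∀ (V : Type) [Fintype V] (r : ℕ) (K : Type u) [Field K]
  (deg : V → Fin r → ℤ), Fnt deg → ∀ A,
  hf deg (⊥ : Ideal (MvPolynomial V K)) A = (mon deg A : ℤ)

/-- elements of the field `Ez` -/
def T_DZF : Prop := ∀ (V : Type) [Fintype V] (r : ℕ) (K : Type u) [Field K] (F : Type u)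
  [Field F] [Algebra K F] (deg : V → Fin r → ℤ) (x : V → F), ∀ y ∈ Ez K deg x,
  ∃ (A : Fin r → ℤ) (a b : MvPolynomial V K), IsWeightedHomogeneous deg a A ∧
    IsWeightedHomogeneous deg b A ∧ aeval x b ≠ 0 ∧ y = aeval x a / aeval x b

/-- the Hilbert function of the ideal of a point -/
def T_HFD : Prop := ∀ (V : Type) [Fintype V] (r : ℕ) (K : Type u) [Field K] (F : Type u)
  [Field F] [Algebra K F] (deg : V → Fin r → ℤ) (x : V → F), Fnt deg → ∀ A,
  hf deg (Ix K x) A = (Module.finrank K ↥(Dg K deg x A) : ℤ)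

/-- periodicity of the Hilbert function of a prime ideal -/
def T_PER : Prop := ∀ (V : Type) [Fintype V] (r q : ℕ) (K : Type u) [Field K]
  (deg : V → Fin r → ℤ) (L : (Fin r → ℤ) →+ (Fin q → ℤ)) (p : ℕ)
  (P : Ideal (MvPolynomial V K)) (g : MvPolynomial V K) (δ : Fin r → ℤ), Fnt deg →
  Hid deg P → P.IsPrime →
  (∀ I : Ideal (MvPolynomial V K), Hid deg I → P < I → Ev p L (hf deg I)) →
  IsWeightedHomogeneous deg g δ → g ∉ P → Ev p L (fun A => hf deg P A - hf deg P (A - δ))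

/-- modules of rank one -/
def T_BET : Prop := ∀ (V : Type) [Fintype V] (r q nb : ℕ) (K : Type u) [Field K] (F : Type u)
  [Field F] [Algebra K F] (deg : V → Fin r → ℤ) (L : (Fin r → ℤ) →+ (Fin q → ℤ))
  (A₀ : Fin r → ℤ) (Bl : Fin nb → Finset V) (p : ℕ) (x : V → F) (w : F) (W : Submodule K F),
  Gr deg L A₀ Bl → Hid deg (Ix K x) →
  (∀ I : Ideal (MvPolynomial V K), Hid deg I → Ix K x < I → Ev p L (hf deg I)) →
  w ∈ Dg K deg x A₀ → w ≠ 0 → W.FG → W ≠ ⊥ → (∀ y ∈ W, y ∈ Ez K deg x) →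
  ∃ j₀ : ℕ, ∀ j : ℕ, j₀ ≤ j →
    (p : ℤ) ∣ (Module.finrank K ↥((Submodule.span K {w⁻¹} * Dg K deg x A₀) ^ j * W) : ℤ) -
      hf deg (Ix K x) (j • A₀)

/-- arithmetic -/
def T_AR2 : Prop := ∀ (p n₀ r : ℕ) (h : ℕ → ℕ → ℤ) (c : ℕ → ℤ), p.Prime → Dif n₀ r h →
  (∀ j, ∃ J₀, ∀ J, J₀ ≤ J → (p : ℤ) ∣ h j J) →
  (∀ J, ∃ j₀, ∀ j, j₀ ≤ j → (p : ℤ) ∣ h j J - c j) →
  ∃ j₀, ∀ j, j₀ ≤ j → (p : ℤ) ∣ c j

/-- the index theorem for an intermediate field -/
def T_ELW : Prop := ∀ (k F : Type u) [Field k] [IsAlgClosed k] [CharZero k] [Field F]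
  [Algebra (LaurentSeries k) F] (E : IntermediateField (LaurentSeries k) F) (p : ℕ), 2 ≤ p →
  (∀ O : ValuationSubring E,
    (∀ a : PowerSeries k, algebraMap (LaurentSeries k) E (a : LaurentSeries k) ∈ O) →
    (algebraMap (LaurentSeries k) E (HahnSeries.single 1 1))⁻¹ ∉ O → ∃ f : E, f ≠ 0 ∧
    algebraMap (LaurentSeries k) E (HahnSeries.single 1 1) * f ^ p ∈ O ∧
    (algebraMap (LaurentSeries k) E (HahnSeries.single 1 1) * f ^ p)⁻¹ ∈ O) →
  ∃ W : Submodule (LaurentSeries k) F, W.FG ∧ W ≠ ⊥ ∧ (∀ y ∈ W, y ∈ E) ∧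
    ∀ T : Submodule (LaurentSeries k) F, T.FG → (∀ y ∈ T, y ∈ E) →
      ∃ J₀ : ℕ, ∀ J, J₀ ≤ J → p ∣ Module.finrank (LaurentSeries k) ↥(W ^ J * T)

/-- no points over extensions of degree prime to `p` -/
def Npt (k : Type u) [Field k] {V κ : Type} [Fintype V] {nb : ℕ} (p : ℕ)
    (φ : κ → MvPolynomial V (LaurentSeries k)) (Bl : Fin nb → Finset V) : Prop :=
  ∀ (K' : Type u) [Field K'] [Algebra (LaurentSeries k) K']
    [FiniteDimensional (LaurentSeries k) K'], ¬ p ∣ Module.finrank (LaurentSeries k) K' →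
    ∀ a : V → K', (∀ i, aeval a (φ i) = 0) → ¬ ∀ i, ∃ v ∈ Bl i, a v ≠ 0

/-- valuation rings of the field of quotients of forms of the same degree -/
def T_PTS : Prop := ∀ (k : Type u) [Field k] [IsAlgClosed k] [CharZero k] (V κ : Type)
  [Fintype V] (r q nb : ℕ) (F : Type u) [Field F] [Algebra (LaurentSeries k) F]
  (deg : V → Fin r → ℤ) (L : (Fin r → ℤ) →+ (Fin q → ℤ)) (A₀ : Fin r → ℤ)
  (Bl : Fin nb → Finset V) (p : ℕ) (φ : κ → MvPolynomial V (LaurentSeries k))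
  (M : κ → Fin r → ℤ) (x : V → F) (w : F), Gr deg L A₀ Bl → p.Prime →
  (∀ i, IsWeightedHomogeneous deg (φ i) (M i)) → (∀ i, aeval x (φ i) = 0) →
  w ∈ Dg (LaurentSeries k) deg x A₀ → w ≠ 0 → Npt k p φ Bl →
  ∀ O : ValuationSubring (Ez (LaurentSeries k) deg x),
    (∀ a : PowerSeries k,
      algebraMap (LaurentSeries k) (Ez (LaurentSeries k) deg x) (a : LaurentSeries k) ∈ O) →
    (algebraMap (LaurentSeries k) (Ez (LaurentSeries k) deg x) (HahnSeries.single 1 1))⁻¹ ∉ O →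
    ∃ f : Ez (LaurentSeries k) deg x, f ≠ 0 ∧
      algebraMap (LaurentSeries k) (Ez (LaurentSeries k) deg x) (HahnSeries.single 1 1) *
        f ^ p ∈ O ∧
      (algebraMap (LaurentSeries k) (Ez (LaurentSeries k) deg x) (HahnSeries.single 1 1) *
        f ^ p)⁻¹ ∈ O

/-- prime ideals -/
def T_PRM : Prop := ∀ (k : Type u) [Field k] [IsAlgClosed k] [CharZero k] (V κ : Type)
  [Fintype V] (r q nb : ℕ) (deg : V → Fin r → ℤ) (L : (Fin r → ℤ) →+ (Fin q → ℤ))
  (A₀ : Fin r → ℤ) (Bl : Fin nb → Finset V) (p : ℕ)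
  (φ : κ → MvPolynomial V (LaurentSeries k)) (M : κ → Fin r → ℤ), Gr deg L A₀ Bl → p.Prime →
  (∀ i, IsWeightedHomogeneous deg (φ i) (M i)) → Npt k p φ Bl →
  ∀ P : Ideal (MvPolynomial V (LaurentSeries k)), Hid deg P → P.IsPrime → (∀ i, φ i ∈ P) →
  (∀ I : Ideal (MvPolynomial V (LaurentSeries k)), Hid deg I → P < I → Ev p L (hf deg I)) →
  Ev p L (hf deg P)

/-- the index theorem: no points over extensions of degree prime to `p` implies that the
expected Hilbert function is divisible by `p` in all deep degrees -/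
def T_IT : Prop := ∀ (k : Type u) [Field k] [IsAlgClosed k] [CharZero k] (V κ : Type)
  [Fintype V] [Fintype κ] [DecidableEq κ] (r q nb : ℕ) (deg : V → Fin r → ℤ)
  (L : (Fin r → ℤ) →+ (Fin q → ℤ)) (A₀ : Fin r → ℤ) (Bl : Fin nb → Finset V) (p : ℕ)
  (φ : κ → MvPolynomial V (LaurentSeries k)) (M : κ → Fin r → ℤ), Gr deg L A₀ Bl → p.Prime →
  (∀ i, IsWeightedHomogeneous deg (φ i) (M i)) → Npt k p φ Bl →
  Ev p L (fun A => ∑ T : Finset κ, (-1 : ℤ) ^ T.card * (mon deg (A - ∑ i ∈ T, M i) : ℤ))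

end Pool.Agent.H15.IX
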