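import Pool.Agent.H15.IX.TD

/-!
# idx_modules, block E: the toric stack of chains of curves and the counting of monomials

`r` is the number of interior positions `1, .., r`, `e = r + 1`. Variables: the coordinates of the
vectors `c_1 .. c_r`, the `ε_1 .. ε_r`, and `λ` (`c_0 = x` and `c_e = λ y`). Degrees are vectors
`A 0, .., A r` of integers.
-/

set_option autoImplicit false

open Finset MvPolynomial

namespace Pool.Agent.H15.IX

universe u

/-- the variables: `inl (i, v)` is the coordinate `v` of `c_(i+1)`, `inr (inl i)` is `ε_(i+1)`,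
`inr (inr ())` is `λ` -/
abbrev Vr (r n : ℕ) : Type := (Fin r × Fin (n + 1)) ⊕ (Fin r ⊕ Unit)

/-- the degrees of the variables -/
def dv (r n : ℕ) : Vr r n → Fin (r + 1) → ℤ
  | Sum.inl z => fun j => (((z.1 : ℕ) + 1 - (j : ℕ) : ℕ) : ℤ)
  | Sum.inr (Sum.inl i) => fun j => if (j : ℕ) = (i : ℕ) + 1 then -1 else 0
  | Sum.inr (Sum.inr _) => fun j => ((r + 1 - (j : ℕ) : ℕ) : ℤ)

/-- extension by zero -/
def ext0 {r : ℕ} (A : Fin (r + 1) → ℤ) (j : ℕ) : ℤ := if h : j < r + 1 then A ⟨j, h⟩ else 0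

/-- second differences -/
def Lf (r : ℕ) : (Fin (r + 1) → ℤ) →+ (Fin (r + 1) → ℤ) where
  toFun A := fun i => ext0 A i - 2 * ext0 A (i + 1) + ext0 A (i + 2)
  map_zero' := by
    funext i
    simp [ext0]
  map_add' := by
    intro A B
    funext i
    have h : ∀ j, ext0 (A + B) j = ext0 A j + ext0 B j := by
      intro j
      unfold ext0
      split_ifs <;> simp
    simp only [h, Pi.add_apply]
    ring

/-- the number of the block of a variable -/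
def bn (r n : ℕ) : Vr r n → ℕ
  | Sum.inl z => z.1
  | Sum.inr (Sum.inl i) => i
  | Sum.inr (Sum.inr _) => r

/-- the blocks of variables: `{c_(i+1), ε_(i+1)}` for `i < r` and `{λ}` for `i = r` -/
def Bk (r n : ℕ) (i : Fin (r + 1)) : Finset (Vr r n) :=
  univ.filter (fun v => bn r n v = (i : ℕ))

/-- the degree with second differences `2` -/
def A2 (r : ℕ) : Fin (r + 1) → ℤ := fun j => ((r : ℤ) + 1 - j) * ((r : ℤ) + 2 - j)

/-- the grading of the toric stack has the properties used in the index theorem -/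
def T_GRD : Prop := ∀ r n : ℕ, ∃ c : ℕ, Gr (dv r n) (Lf r) (c • A2 r) (Bk r n)

section curve

variable {K : Type u} [Field K] {n : ℕ}

/-- the vectors `c_0 = x, c_1, .., c_r, c_(r+1) = λ y` over the polynomial ring -/
noncomputable def cc (r : ℕ) (x y : Fin (n + 1) → K) (i : ℕ) (v : Fin (n + 1)) :
    MvPolynomial (Vr r n) K :=
  if i = 0 then C (x v) else if h : i - 1 < r then X (Sum.inl (⟨i - 1, h⟩, v))
  else if i = r + 1 then C (y v) * X (Sum.inr (Sum.inr ())) else 0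

/-- `ε_q` for `1 ≤ q ≤ r` and `1` otherwise -/
noncomputable def ee (K : Type u) [Field K] (r n : ℕ) (q : ℕ) : MvPolynomial (Vr r n) K :=
  if q = 0 then 1 else if h : q - 1 < r then X (Sum.inr (Sum.inl ⟨q - 1, h⟩)) else 1

/-- the coefficient of `T ^ i` in the curve with cut at `j` -/
noncomputable def cut (r : ℕ) (x y : Fin (n + 1) → K) (j i : ℕ) (v : Fin (n + 1)) :
    MvPolynomial (Vr r n) K :=
  cc r x y i v * ((∏ q ∈ Icc 1 j, ee K r n q ^ (q - i)) *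
    ∏ q ∈ Icc (j + 1) r, ee K r n q ^ (i - q))

/-- the curve with cut at `j` -/
noncomputable def Crv (r : ℕ) (x y : Fin (n + 1) → K) (j : ℕ) (v : Fin (n + 1)) :
    Polynomial (MvPolynomial (Vr r n) K) :=
  ∑ i ∈ range (r + 2), Polynomial.monomial i (cut r x y j i v)

/-- the sections `φ m` of the form `F` of degree `d` satisfy the identity with the curves -/
def CutId (r d : ℕ) (x y : Fin (n + 1) → K) (F : MvPolynomial (Fin (n + 1)) K)
    (φ : ℕ → MvPolynomial (Vr r n) K) : Prop :=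
  ∀ j, j ≤ r → ∀ m, (aeval (Crv r x y j) F).coeff m =
    φ m * ((∏ q ∈ Icc 1 j, ee K r n q ^ (d * q - m)) *
      ∏ q ∈ Icc (j + 1) r, ee K r n q ^ (m - d * q))

end curve

/-- existence of the sections -/
def T_PHI : Prop := ∀ (K : Type u) [Field K] (n r d : ℕ) (x y : Fin (n + 1) → K)
  (F : MvPolynomial (Fin (n + 1)) K), F.IsHomogeneous d →
  ∃ φ : ℕ → MvPolynomial (Vr r n) K,
    (∀ m, IsWeightedHomogeneous (dv r n) (φ m) (fun j => ((m - d * (j : ℕ) : ℕ) : ℤ))) ∧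
    CutId r d x y F φ

/-- the number of `κ` with weight `a` and potentials at least `N j`, `j ∈ J` -/
noncomputable def Hc {ι : Type} [Fintype ι] (pos : ι → ℕ) (J : Finset ℕ) (a : ℤ)
    (N : ℕ → ℤ) : ℕ :=
  Nat.card {κ : ι → ℕ // ((∑ i, κ i * pos i : ℕ) : ℤ) = a ∧
    ∀ j ∈ J, N j ≤ ((∑ i, κ i * (pos i - j) : ℕ) : ℤ)}

/-- the positions of the variables `c_(i, v)` and `λ` -/
def ps (r n : ℕ) : (Fin r × Fin (n + 1)) ⊕ Unit → ℕ
  | Sum.inl z => (z.1 : ℕ) + 1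
  | Sum.inr _ => r + 1

/-- monomials are counted by `Hc` -/
def T_MON : Prop := ∀ (r n : ℕ) (A : Fin (r + 1) → ℤ),
  mon (dv r n) A = Hc (ps r n) (Icc 1 r) (A 0) (ext0 A)

/-- `p`-part of `m` -/
def wp (p m : ℕ) : ℕ := p ^ padicValNat p m

/-- the polynomial `D` acts on functions by shifts -/
noncomputable def act {p : ℕ} (D : Polynomial (ZMod p)) (h : ℤ → ZMod p) : ℤ → ZMod p :=
  fun a => ∑ i ∈ range (D.natDegree + 1), D.coeff i * h (a - i)

/-- functions whose generating series has (up to a polynomial) a pole of order at most `q` at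
`1` -/
def Wc (p q : ℕ) (h : ℤ → ZMod p) : Prop :=
  ∃ D : Polynomial (ZMod p), D.eval 1 ≠ 0 ∧ ∃ a₀ : ℤ, ∀ a, a₀ ≤ a →
    act (D * (1 - Polynomial.X) ^ q) h a = 0

/-- properties of `Wc` -/
def T_WCL : Prop := ∀ (p : ℕ), p.Prime →
  (∀ q (g h : ℤ → ZMod p), Wc p q g → Wc p q h → Wc p q (fun a => g a + h a)) ∧
  (∀ q (c : ZMod p) (h : ℤ → ZMod p), Wc p q h → Wc p q (fun a => c * h a)) ∧
  (∀ q (c : ℤ) (h : ℤ → ZMod p), Wc p q h → Wc p q (fun a => h (a - c))) ∧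
  (∀ q q' (h : ℤ → ZMod p), q ≤ q' → Wc p q h → Wc p q' h) ∧
  (∀ (q m : ℕ) (h : ℤ → ZMod p), 1 ≤ m → Wc p q h →
    Wc p (q - wp p m) (fun a => h a - h (a - m))) ∧
  (∀ (q m : ℕ) (h : ℤ → ZMod p), 1 ≤ m → Wc p q (fun a => h a - h (a - m)) →
    Wc p (q + wp p m) h) ∧
  (∀ q (g h : ℤ → ZMod p), (∃ a₀ : ℤ, ∀ a, a₀ ≤ a → g a = h a) → Wc p q g → Wc p q h)

/-- the pole order of the counting function -/
def T_WN1 : Prop := ∀ (p : ℕ) (ι : Type) [Fintype ι] (pos : ι → ℕ) (J : Finset ℕ)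
  (N : ℕ → ℤ), p.Prime → (∀ i, 1 ≤ pos i) → (∀ j ∈ J, 1 ≤ j) →
  Wc p (∑ i, wp p (pos i)) (fun a => (Hc pos J a N : ZMod p))

/-- the pole order of the part with a break at `j` -/
def T_WN2 : Prop := ∀ (p : ℕ) (ι : Type) [Fintype ι] (pos : ι → ℕ) (J : Finset ℕ)
  (N : ℕ → ℤ) (j : ℕ), p.Prime → (∀ i, 1 ≤ pos i) → (∀ j ∈ J, 1 ≤ j) → j ∈ J →
  Wc p (∑ i ∈ univ.filter (fun i => pos i ≤ j), wp p (pos i))
    (fun a => (Hc pos J a N : ZMod p) - (Hc pos J a (Function.update N j (N j + 1)) : ZMod p))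

/-- the exact pole order of the naive function -/
def T_WN3 : Prop := ∀ (p q : ℕ) (ι κ : Type) [Fintype ι] [Fintype κ] [DecidableEq κ]
  (pos : ι → ℕ) (m : κ → ℕ) (J : Finset ℕ), p.Prime → (∀ i, 1 ≤ pos i) → (∀ σ, 1 ≤ m σ) →
  ∑ σ, wp p (m σ) + q < ∑ i, wp p (pos i) →
  ¬ Wc p q (fun a => ∑ T : Finset κ, (-1 : ZMod p) ^ T.card *
    (Hc pos J (a - ∑ σ ∈ T, (m σ : ℤ)) (fun _ => 0) : ZMod p))

/-- telescoping -/
def T_TEL : Prop := ∀ (p r Q : ℕ) (κ : Type) [Fintype κ] [DecidableEq κ]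
  (M : κ → Fin (r + 1) → ℕ) (H : (Fin (r + 1) → ℤ) → ZMod p) (qj : Fin (r + 1) → ℕ), p.Prime →
  (∀ σ, 1 ≤ M σ 0) →
  (∀ σ (j j' : Fin (r + 1)), j ≠ 0 → j ≤ j' → M σ j = 0 → M σ j' = 0) →
  (∀ j : Fin (r + 1), j ≠ 0 → ∀ A : Fin (r + 1) → ℤ,
    Wc p (qj j) (fun a => H (A + Pi.single 0 a) - H (A + Pi.single j 1 + Pi.single 0 a))) →
  (∀ j : Fin (r + 1), j ≠ 0 →
    qj j - ∑ σ ∈ univ.filter (fun σ => M σ j = 0), wp p (M σ 0) ≤ Q) →
  ∀ A : Fin (r + 1) → ℤ, Wc p Q (fun a => ∑ T : Finset κ, (-1 : ZMod p) ^ T.card *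
    (H (A + Pi.single 0 a - ∑ σ ∈ T, fun j => (M σ j : ℤ)) -
      H (Pi.single 0 (A 0 + a - ∑ σ ∈ T, (M σ 0 : ℤ)))))

/-- the inequality -/
def Ineq (p n s r : ℕ) (d : Fin s → ℕ) : Prop :=
  ∀ j, j ≤ r → ∑ l, ∑ m ∈ Ioo (d l * j) (d l * (r + 1)), wp p m <
    (n + 1) * ∑ i ∈ Ioo j (r + 1), wp p i + wp p (r + 1)

/-- the inequality holds for large powers of `p` -/
def T_NUM : Prop := ∀ (p n s : ℕ) (d : Fin s → ℕ), p.Prime → (∀ l, 1 ≤ d l) →
  ∑ l, d l ≤ n → ∃ r : ℕ, Ineq p n s r d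

/-- nonvanishing modulo `p` -/
def T_NVN : Prop := ∀ (p n s r : ℕ) (d : Fin s → ℕ), p.Prime → (∀ l, 1 ≤ d l) →
  Ineq p n s r d →
  ¬ Ev p (Lf r) (fun A => ∑ T : Finset (Σ l : Fin s, Fin (d l * (r + 1) - 1)),
    (-1 : ℤ) ^ T.card * (mon (dv r n) (A - ∑ σ ∈ T, fun j : Fin (r + 1) =>
      (((σ.2 : ℕ) + 1 - d σ.1 * (j : ℕ) : ℕ) : ℤ)) : ℤ))

end Pool.Agent.H15.IX
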