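import Pool.Agent.H15.IX.TE
import Pool.Agent.H17.IQ.Cyc

/-!
# idx_modules, block F: from points of the toric stack to R-equivalence and zero-cycles
-/

set_option autoImplicit false

open Finset MvPolynomial Pool.Agent.H13.RE Pool.Agent.H17.IQ

namespace Pool.Agent.H15.IX

universe u

/-- a curve with two given end points gives R-equivalence -/
def T_LNK : Prop := ∀ (k : Type u) [Field k] (N s D : ℕ) (d : Fin s → ℕ)
  (F : Fin s → MvPolynomial (Fin N) k) (γ : ℕ → Fin N → k),
  (∀ l, (F l).IsHomogeneous (d l)) →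
  (∀ l, aeval (fun v => ∑ i ∈ range (D + 1), Polynomial.monomial i (γ i v) :
    Fin N → Polynomial k) (F l) = 0) → γ 0 ≠ 0 → γ D ≠ 0 → RE [] F (γ 0) (γ D)

/-- points of the toric stack are chains of rational curves -/
def T_CUR : Prop := ∀ (K K' : Type u) [Field K] [Field K'] [Algebra K K'] (n r s : ℕ)
  (d : Fin s → ℕ) (F : Fin s → MvPolynomial (Fin (n + 1)) K) (x y : Fin (n + 1) → K)
  (φ : Fin s → ℕ → MvPolynomial (Vr r n) K), (∀ l, 1 ≤ d l) →
  (∀ l, (F l).IsHomogeneous (d l)) → x ≠ 0 → y ≠ 0 → (∀ l, eval x (F l) = 0) →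
  (∀ l, eval y (F l) = 0) → (∀ l, CutId r (d l) x y (F l) (φ l)) →
  ∀ a : Vr r n → K', (∀ l m, 0 < m → m < d l * (r + 1) → aeval a (φ l m) = 0) →
  (∀ i : Fin (r + 1), ∃ v ∈ Bk r n i, a v ≠ 0) →
  RE [] (fun l => MvPolynomial.map (algebraMap K K') (F l)) (fun v => algebraMap K K' (x v))
    (fun v => algebraMap K K' (y v))

/-- R-equivalence over extensions of degree prime to `p` -/
def T_COR : Prop := ∀ (k : Type u) [Field k] [IsAlgClosed k] [CharZero k] (n s p : ℕ)
  (d : Fin s → ℕ) (F : Fin s → MvPolynomial (Fin (n + 1)) (LaurentSeries k))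
  (x y : Fin (n + 1) → LaurentSeries k), p.Prime → (∀ l, 1 ≤ d l) →
  (∀ l, (F l).IsHomogeneous (d l)) → ∑ l, d l ≤ n → x ≠ 0 → y ≠ 0 →
  (∀ l, eval x (F l) = 0) → (∀ l, eval y (F l) = 0) →
  ∃ (K' : Type u) (_ : Field K') (_ : Algebra (LaurentSeries k) K')
    (_ : FiniteDimensional (LaurentSeries k) K'),
    ¬ p ∣ Module.finrank (LaurentSeries k) K' ∧
    RE [] (fun l => MvPolynomial.map (algebraMap (LaurentSeries k) K') (F l))
      (fun v => algebraMap (LaurentSeries k) K' (x v))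
      (fun v => algebraMap (LaurentSeries k) K' (y v))

/-- the same for all fields isomorphic to a field of Laurent series -/
def T_COF : Prop := ∀ (k K : Type u) [Field k] [IsAlgClosed k] [CharZero k] [Field K]
  (_ : K ≃+* LaurentSeries k) (n s p : ℕ)
  (d : Fin s → ℕ) (F : Fin s → MvPolynomial (Fin (n + 1)) K)
  (x y : Fin (n + 1) → K), p.Prime → (∀ l, 1 ≤ d l) →
  (∀ l, (F l).IsHomogeneous (d l)) → ∑ l, d l ≤ n → x ≠ 0 → y ≠ 0 →
  (∀ l, eval x (F l) = 0) → (∀ l, eval y (F l) = 0) →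
  ∃ (K' : Type u) (_ : Field K') (_ : Algebra K K') (_ : FiniteDimensional K K'),
    ¬ p ∣ Module.finrank K K' ∧
    RE [] (fun l => MvPolynomial.map (algebraMap K K') (F l))
      (fun v => algebraMap K K' (x v)) (fun v => algebraMap K K' (y v))

/-- the field generated over `k((t))` by all roots of `t` of order prime to `p` (the union of the
fields `k((t^(1/m)))`, `m` prime to `p`) -/
noncomputable def Kp (k : Type u) [Field k] (p : ℕ) :
    IntermediateField (LaurentSeries k) (AlgebraicClosure (LaurentSeries k)) :=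
  IntermediateField.adjoin (LaurentSeries k) {x | ∃ m : ℕ, ¬ p ∣ m ∧
    x ^ m = algebraMap (LaurentSeries k) (AlgebraicClosure (LaurentSeries k))
      (HahnSeries.single 1 1)}

/-- finite extensions of degree prime to `p` are contained in `Kp` -/
def T_KPE : Prop := ∀ (k : Type u) [Field k] [IsAlgClosed k] [CharZero k] (p : ℕ), p.Prime →
  ∀ (E : IntermediateField (LaurentSeries k) (AlgebraicClosure (LaurentSeries k)))
    [FiniteDimensional (LaurentSeries k) E], ¬ p ∣ Module.finrank (LaurentSeries k) E →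
    E ≤ Kp k p

/-- finite subextensions of `Kp` have degree prime to `p` -/
def T_KPF : Prop := ∀ (k : Type u) [Field k] [IsAlgClosed k] [CharZero k] (p : ℕ), p.Prime →
  ∀ (E : IntermediateField (LaurentSeries k) (AlgebraicClosure (LaurentSeries k)))
    [FiniteDimensional (LaurentSeries k) E], E ≤ Kp k p →
    ¬ p ∣ Module.finrank (LaurentSeries k) E

/-- R-equivalence over `Kp` -/
def T_RKP : Prop := ∀ (k : Type u) [Field k] [IsAlgClosed k] [CharZero k] (n s p : ℕ)
  (d : Fin s → ℕ) (F : Fin s → MvPolynomial (Fin (n + 1)) (Kp k p))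
  (x y : Fin (n + 1) → Kp k p), p.Prime → (∀ l, 1 ≤ d l) →
  (∀ l, (F l).IsHomogeneous (d l)) → ∑ l, d l ≤ n → x ≠ 0 → y ≠ 0 →
  (∀ l, eval x (F l) = 0) → (∀ l, eval y (F l) = 0) → RE [] F x y

/-- zero-cycles over `k((t))` -/
def T_CYC : Prop := ∀ (k : Type u) [Field k] [IsAlgClosed k] [CharZero k] (n s : ℕ)
  (d : Fin s → ℕ) (F : Fin s → MvPolynomial (Fin (n + 1)) (LaurentSeries k))
  (x : Fin (n + 1) → LaurentSeries k), (∀ l, 1 ≤ d l) →
  (∀ l, (F l).IsHomogeneous (d l)) → ∑ l, d l ≤ n → x ≠ 0 → (∀ l, eval x (F l) = 0) →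
  ∀ z ∈ Cycles F, z.sum (fun _ a => a) = 0 → z ∈ Rat F

end Pool.Agent.H15.IX
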