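import Pool.Agent.H15.IX.TF

/-!
# idx_modules, block G: algebraic extensions of the field of Laurent series
-/

set_option autoImplicit false

open Finset MvPolynomial Pool.Agent.H13.RE Pool.Agent.H17.IQ

namespace Pool.Agent.H15.IX

universe u

/-- the common construction for algebraic extensions `E` of `k((t))` -/
def T_COB : Prop := ∀ (k E : Type u) [Field k] [IsAlgClosed k] [CharZero k] [Field E]
  [Algebra (LaurentSeries k) E] [Algebra.IsAlgebraic (LaurentSeries k) E] (n s p : ℕ)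
  (d : Fin s → ℕ) (F : Fin s → MvPolynomial (Fin (n + 1)) E)
  (x y : Fin (n + 1) → E), p.Prime → (∀ l, 1 ≤ d l) →
  (∀ l, (F l).IsHomogeneous (d l)) → ∑ l, d l ≤ n → x ≠ 0 → y ≠ 0 →
  (∀ l, eval x (F l) = 0) → (∀ l, eval y (F l) = 0) →
  ∃ (u : AlgebraicClosure E) (a m₁ m' : ℕ), ¬ p ∣ m₁ ∧ ¬ p ∣ m' ∧
    u ^ (p ^ a * m₁ * m') = algebraMap E (AlgebraicClosure E)
      (algebraMap (LaurentSeries k) E (HahnSeries.single 1 1)) ∧
    (∃ c : E, u ^ m' = algebraMap E (AlgebraicClosure E) c) ∧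
    RE [] (fun l => MvPolynomial.map (algebraMap E (IntermediateField.adjoin E {u})) (F l))
      (fun v => algebraMap E (IntermediateField.adjoin E {u}) (x v))
      (fun v => algebraMap E (IntermediateField.adjoin E {u}) (y v))

/-- R-equivalence over extensions of degree prime to `p` of an algebraic extension `E` of
`k((t))` -/
def T_COA : Prop := ∀ (k E : Type u) [Field k] [IsAlgClosed k] [CharZero k] [Field E]
  [Algebra (LaurentSeries k) E] [Algebra.IsAlgebraic (LaurentSeries k) E] (n s p : ℕ)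
  (d : Fin s → ℕ) (F : Fin s → MvPolynomial (Fin (n + 1)) E)
  (x y : Fin (n + 1) → E), p.Prime → (∀ l, 1 ≤ d l) →
  (∀ l, (F l).IsHomogeneous (d l)) → ∑ l, d l ≤ n → x ≠ 0 → y ≠ 0 →
  (∀ l, eval x (F l) = 0) → (∀ l, eval y (F l) = 0) →
  ∃ (K' : Type u) (_ : Field K') (_ : Algebra E K') (_ : FiniteDimensional E K'),
    ¬ p ∣ Module.finrank E K' ∧
    RE [] (fun l => MvPolynomial.map (algebraMap E K') (F l))
      (fun v => algebraMap E K' (x v)) (fun v => algebraMap E K' (y v))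

/-- R-equivalence over algebraic extensions `E` of `k((t))` which contain all roots of `t` of
order prime to `p` -/
def T_RKA : Prop := ∀ (k E : Type u) [Field k] [IsAlgClosed k] [CharZero k] [Field E]
  [Algebra (LaurentSeries k) E] [Algebra.IsAlgebraic (LaurentSeries k) E] (n s p : ℕ)
  (d : Fin s → ℕ) (F : Fin s → MvPolynomial (Fin (n + 1)) E)
  (x y : Fin (n + 1) → E), p.Prime →
  (∀ m : ℕ, ¬ p ∣ m → ∃ z : E, z ^ m = algebraMap (LaurentSeries k) E (HahnSeries.single 1 1)) →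
  (∀ l, 1 ≤ d l) → (∀ l, (F l).IsHomogeneous (d l)) → ∑ l, d l ≤ n → x ≠ 0 → y ≠ 0 →
  (∀ l, eval x (F l) = 0) → (∀ l, eval y (F l) = 0) → RE [] F x y

/-- zero-cycles over algebraic extensions of `k((t))` -/
def T_CYA : Prop := ∀ (k E : Type u) [Field k] [IsAlgClosed k] [CharZero k] [Field E]
  [Algebra (LaurentSeries k) E] [Algebra.IsAlgebraic (LaurentSeries k) E] (n s : ℕ)
  (d : Fin s → ℕ) (F : Fin s → MvPolynomial (Fin (n + 1)) E)
  (x : Fin (n + 1) → E), (∀ l, 1 ≤ d l) →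
  (∀ l, (F l).IsHomogeneous (d l)) → ∑ l, d l ≤ n → x ≠ 0 → (∀ l, eval x (F l) = 0) →
  ∀ z ∈ Cycles F, z.sum (fun _ a => a) = 0 → z ∈ Rat F

end Pool.Agent.H15.IX
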